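import Pool.Agent.Helper55.Kh.Final

/-!
The minimal gap of the Khovanov Laplacian of the twisted unknot diagrams `TU_n` is attained in
bidegree `(0, 3 - n)`, for every `n ≥ 1`, and equals `2 - 2 cos (π / (n + 2))`.
-/

open Pool.Agent.Helper55.Kh in
/-- For every `n ≥ 1`: the block `L_(0,3-n)(TU_n)` is nonzero and its gap (smallest nonzero
eigenvalue) is `2 - 2 cos (π / (n + 2))`; and for every bidegree `(k, j)` with `L_(k,j)(TU_n) ≠ 0`
the gap of `L_(k,j)(TU_n)` exists and is at least that number. -/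
theorem Pool.Agent.Results.MP_ba01d8_gt.MinimalGap.result (n : ℕ) (hn : 1 ≤ n) :
    block n 0 (3 - n) ≠ 0 ∧
    IsLeast (nonzeroEigenvalues n 0 (3 - n)) (2 - 2 * Real.cos (Real.pi / (n + 2))) ∧
    ∀ (k : ℕ) (j : ℤ), block n k j ≠ 0 →
      ∃ g, IsLeast (nonzeroEigenvalues n k j) g ∧
        2 - 2 * Real.cos (Real.pi / (n + 2)) ≤ g := by
  have hmem := mem_block hn
  refine ⟨?_, ⟨hmem, fun μ hμ => lower_block hμ⟩, ?_⟩
  · intro h
    obtain ⟨h0, v, hv, hev⟩ := hmem
    rw [h, Matrix.zero_mulVec] at hev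
    rcases smul_eq_zero.mp hev.symm with h' | h'
    · exact h0 h'
    · exact hv h'
  · intro k j hkj
    have h1 := nonempty_nonzeroEigenvalues hkj
    have h2 := h1.csInf_mem (finite_nonzeroEigenvalues n k j)
    exact ⟨_, ⟨h2, fun μ hμ => csInf_le (finite_nonzeroEigenvalues n k j).bddBelow hμ⟩, lower_block h2⟩
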